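import Pool.Agent.Helper70.KN.Goals

/-! # Project KN: goal Y1 -/

open MeasureTheory Set

namespace Pool.Agent.Helper5.KN.Y1

open Pool.Agent.Helper70.KN

theorem t (hSL : S_SL) : S_Y1 := by
  intro N V c hT i h h0 hc
  have hc0 : 0 < c := hT.2.1
  have hN : 1 ≤ N := by have := i.2; omega
  have hset : cyl V (∅ : Finset (Fin N)) ∩ {x | x i < h} = part V h {i} := by
    ext x
    simp only [cyl, part, mem_inter_iff, mem_setOf_eq, Finset.notMem_empty, false_imp_iff,
      implies_true, true_and, Finset.mem_singleton, forall_eq]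
    have : zr (∅ : Finset (Fin N)) x = x := by
      funext j
      simp [zr]
    rw [this]
    tauto
  have key := hSL N V c hT ∅ i (Finset.notMem_empty i) h h0 hc
  rw [hset] at key
  have hi : insert i (∅ : Finset (Fin N)) = {i} := rfl
  rw [hi, Finset.card_empty, Nat.sub_zero] at key
  refine le_trans ?_ key
  apply mul_le_mul_of_nonneg_right _ ENNReal.toReal_nonneg
  have hlow : (∫ t in (0 : ℝ)..h, (1 - ((N : ℝ) - 1) * (t / c))) ≤
      ∫ t in (0 : ℝ)..h, (1 - t / c) ^ (N - 1) := by
    apply intervalIntegral.integral_mono_on h0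
    · apply Continuous.intervalIntegrable
      fun_prop
    · apply Continuous.intervalIntegrable
      fun_prop
    · intro t ht
      have ht1 : t / c ≤ 1 := by rw [div_le_one hc0]; linarith [ht.2]
      have ht0 : 0 ≤ t / c := div_nonneg ht.1 hc0.le
      have hb := one_add_mul_le_pow (a := -(t / c)) (by linarith) (N - 1)
      have hcast : ((N - 1 : ℕ) : ℝ) = (N : ℝ) - 1 := by
        rw [Nat.cast_sub hN]
        simp
      rw [hcast] at hb
      have h1 : (1 : ℝ) + -(t / c) = 1 - t / c := by ring
      rw [h1] at hb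
      linarith
  refine le_trans (le_of_eq ?_) hlow
  have hint : (∫ t in (0 : ℝ)..h, (1 - ((N : ℝ) - 1) * (t / c))) =
      (∫ _t in (0 : ℝ)..h, (1 : ℝ)) - ∫ t in (0 : ℝ)..h, ((N : ℝ) - 1) * (t / c) := by
    apply intervalIntegral.integral_sub
    · exact intervalIntegrable_const
    · apply Continuous.intervalIntegrable
      fun_prop
  rw [hint, intervalIntegral.integral_const_mul, intervalIntegral.integral_div, integral_id]
  simp
  ring

end Pool.Agent.Helper5.KN.Y1
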